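import Pool.Agent.N841.LZ.Stm

/-! Project LZ, leaf COH: coherent finite-to-one functions on the initial segments of `ω₁`. -/

set_option autoImplicit false

open Cardinal Set

namespace Pool.Agent.N710.LZCOH

open Pool.Agent.N841.LZ

lemma countable_Iio (a : Om) : (Set.Iio a).Countable := by
  have h : #(Set.Iio a) < ℵ₁ := Cardinal.mk_Iio_toType_ord_lt a
  exact (Cardinal.countable_iff_lt_aleph_one _).mpr h

/-- the property of the function at stage `a` -/
def P (a : Om) (e : Om → Om → ℕ) (f : Om → ℕ) : Prop :=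
  (∀ k, {x | x < a ∧ f x ≤ k}.Finite) ∧ ∀ b < a, {x | x < b ∧ e b x ≠ f x}.Finite

lemma step (a : Om) (e : Om → Om → ℕ) (h1 : ∀ b < a, ∀ k, {x | x < b ∧ e b x ≤ k}.Finite)
    (h2 : ∀ b c, c < b → b < a → {x | x < c ∧ e c x ≠ e b x}.Finite) : ∃ f, P a e f := by
  classical
  by_cases hne : (Set.Iio a).Nonempty
  swap
  · refine ⟨fun _ => 0, ?_, ?_⟩
    · intro k
      refine Set.Finite.subset Set.finite_empty ?_
      rintro x ⟨hx, -⟩
      exact (hne ⟨x, hx⟩).elim
    · intro b hb
      exact (hne ⟨b, hb⟩).elim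
  obtain ⟨b, hb⟩ := (countable_Iio a).exists_eq_range hne
  have hblt : ∀ n, b n < a := fun n => by
    have : b n ∈ Set.Iio a := by rw [hb]; exact ⟨n, rfl⟩
    exact this
  let m : ℕ → Om := fun n => Nat.rec (b 0) (fun k v => max v (b (k + 1))) n
  have hm0 : m 0 = b 0 := rfl
  have hmS : ∀ n, m (n + 1) = max (m n) (b (n + 1)) := fun n => rfl
  have hmlt : ∀ n, m n < a := by
    intro n
    induction n with
    | zero => rw [hm0]; exact hblt 0
    | succ n ih => rw [hmS]; exact max_lt ih (hblt _)
  have hbm : ∀ n, b n ≤ m n := by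
    intro n
    cases n with
    | zero => exact le_of_eq hm0.symm
    | succ n => rw [hmS]; exact le_max_right _ _
  have hex : ∀ x, x < a → ∃ n, x ≤ m n := by
    intro x hx
    have : x ∈ Set.range b := by rw [← hb]; exact hx
    obtain ⟨n, rfl⟩ := this
    exact ⟨n, hbm n⟩
  let N : Om → ℕ := fun x => sInf {n | x ≤ m n}
  have hN : ∀ x, x < a → x ≤ m (N x) := fun x hx => Nat.sInf_mem (hex x hx)
  have hNle : ∀ x n, x ≤ m n → N x ≤ n := fun x n hn => Nat.sInf_le hn
  obtain ⟨f, hfN, hfe⟩ : ∃ f : Om → ℕ, (∀ x, x = m (N x) → f x = N x) ∧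
      ∀ x, x ≠ m (N x) → f x = max (N x) (e (m (N x)) x) := by
    refine ⟨fun x => if x = m (N x) then N x else max (N x) (e (m (N x)) x), ?_, ?_⟩
    · intro x hx
      exact if_pos hx
    · intro x hx
      exact if_neg hx
  have hfNle : ∀ x, N x ≤ f x := by
    intro x
    rcases eq_or_ne x (m (N x)) with hx | hx
    · rw [hfN x hx]
    · rw [hfe x hx]; exact le_max_left _ _
  refine ⟨f, ?_, ?_⟩
  · intro k
    refine Set.Finite.subset (s := ⋃ n ∈ Set.Iic k, ({m n} ∪ {x | x < m n ∧ e (m n) x ≤ k})) ?_ ?_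
    · refine Set.Finite.biUnion (Set.finite_Iic k) ?_
      intro n _
      exact (Set.finite_singleton _).union (h1 _ (hmlt n) k)
    · rintro x ⟨hx, hfx⟩
      have h3 : N x ≤ k := (hfNle x).trans hfx
      simp only [Set.mem_iUnion]
      refine ⟨N x, h3, ?_⟩
      rcases eq_or_ne x (m (N x)) with hxm | hxm
      · left
        exact hxm
      · right
        refine ⟨lt_of_le_of_ne (hN x hx) hxm, ?_⟩
        rw [hfe x hxm] at hfx
        exact (le_max_right _ _).trans hfx
  · intro b' hb'
    obtain ⟨n0, hn0⟩ := hex b' hb'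
    refine Set.Finite.subset (s := ⋃ n ∈ Set.Iic n0, ({m n} ∪ {x | x < m n ∧ e (m n) x ≤ n} ∪
      {x | x < m n ∧ x < b' ∧ e (m n) x ≠ e b' x})) ?_ ?_
    · refine Set.Finite.biUnion (Set.finite_Iic n0) ?_
      intro n _
      refine ((Set.finite_singleton _).union (h1 _ (hmlt n) n)).union ?_
      rcases lt_trichotomy (m n) b' with h | h | h
      · refine (h2 b' (m n) h hb').subset ?_
        rintro x ⟨hx1, _, hx3⟩
        exact ⟨hx1, hx3⟩
      · refine Set.Finite.subset Set.finite_empty ?_
        rintro x ⟨_, _, hx3⟩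
        exact (hx3 (by rw [h])).elim
      · refine (h2 (m n) b' h (hmlt n)).subset ?_
        rintro x ⟨_, hx2, hx3⟩
        exact ⟨hx2, fun h => hx3 h.symm⟩
    · rintro x ⟨hx, hfx⟩
      have hxa : x < a := hx.trans hb'
      have h3 : N x ≤ n0 := hNle x n0 (hx.le.trans hn0)
      simp only [Set.mem_iUnion]
      refine ⟨N x, h3, ?_⟩
      rcases eq_or_ne x (m (N x)) with hxm | hxm
      · left; left
        exact hxm
      · have hlt : x < m (N x) := lt_of_le_of_ne (hN x hxa) hxm
        have hf : f x = max (N x) (e (m (N x)) x) := hfe x hxm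
        by_cases hle : e (m (N x)) x ≤ N x
        · left; right
          exact ⟨hlt, hle⟩
        · right
          refine ⟨hlt, hx, ?_⟩
          intro h
          apply hfx
          rw [hf, max_eq_right (by omega), h]

open Classical in
/-- the recursion -/
noncomputable def E : Om → Om → ℕ :=
  WellFounded.fix (r := (· < · : Om → Om → Prop)) wellFounded_lt
    (fun a IH => if h : ∃ f, P a (fun b x => if hb : b < a then IH b hb x else 0) f
      then Classical.choose h else fun _ => 0)

lemma P_congr (a : Om) (e e' : Om → Om → ℕ) (h : ∀ b < a, e b = e' b) (f : Om → ℕ) :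
    P a e f → P a e' f := by
  rintro ⟨h1, h2⟩
  refine ⟨h1, fun b hb => ?_⟩
  rw [← h b hb]
  exact h2 b hb

lemma E_spec (a : Om) (h : ∃ f, P a E f) : P a E (E a) := by
  classical
  have h1 : ∃ f, P a (fun b x => if _hb : b < a then E b x else 0) f := by
    obtain ⟨f, hf⟩ := h
    refine ⟨f, P_congr a _ _ (fun b hb => ?_) f hf⟩
    funext x
    rw [dif_pos hb]
  have h2 : E a = Classical.choose h1 := by
    have h3 := WellFounded.fix_eq (r := (· < · : Om → Om → Prop)) wellFounded_lt
      (fun a (IH : (b : Om) → b < a → Om → ℕ) =>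
        if h : ∃ f, P a (fun b x => if hb : b < a then IH b hb x else 0) f
        then Classical.choose h else fun _ => 0) a
    have h5 : E a = _ := h3
    rw [h5]
    exact dif_pos h1
  have h4 := Classical.choose_spec h1
  rw [← h2] at h4
  refine P_congr a _ _ (fun b hb => ?_) _ h4
  funext x
  rw [dif_pos hb]

lemma E_P (a : Om) : P a E (E a) := by
  induction a using WellFoundedLT.induction with
  | ind a ih =>
    apply E_spec
    apply step
    · intro b hb k
      exact (ih b hb).1 k
    · intro b c hcb hb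
      exact (ih b hb).2 c hcb

theorem t_COH : S_COH := by
  refine ⟨E, fun a k => (E_P a).1 k, fun a b hab => (E_P b).2 a hab⟩

end Pool.Agent.N710.LZCOH
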